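import Pool.Agent.Results.MP_33dc3a_co.SixGraphs
import Pool.Agent.W175.Crit.Bound
import Pool.Agent.W175.Crit.Circ

set_option autoImplicit false

namespace Pool.Agent.Results.MP_33dc3a_co.AllNine

open Pool.Agent.H265R2.P5 (embed5)
open Pool.Agent.W175.Crit
open Pool.Agent.Results.MP_33dc3a_co.SixGraphs (IsVertexCritical fourPathPlusOne chair bull cricket
  squarePlusOne fivePoints isoSetoid crit noP5_of_free)

/-- `K₅` minus an edge: the complement of the graph with the single edge `0 1`. -/
def completeMinusEdge : SimpleGraph (Fin 5) := (SimpleGraph.fromEdgeSet {s(0, 1)})ᶜ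

/-- The complement of `P₃ + 2P₁`: the path `0 - 1 - 2` and the isolated vertices `3, 4`,
complemented. -/
def coPathPlusTwo : SimpleGraph (Fin 5) := (SimpleGraph.fromEdgeSet {s(0, 1), s(1, 2)})ᶜ

/-- `K₅`. -/
def completeFive : SimpleGraph (Fin 5) := ⊤

theorem noK5e_of_free {V : Type} (G : SimpleGraph V)
    (h : ¬ completeMinusEdge.IsIndContained G) : NoK5e G := by
  intro a b c d e hne hab hac had hae hbc hbd hbe hcd hce hde
  apply h
  apply embed5 G _ a b c d e hne hac.ne had.ne hae.ne hbc.ne hbd.ne hbe.ne hcd.ne hce.ne hde.ne <;>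
  simp [completeMinusEdge, hab, hac, had, hae, hbc, hbd, hbe, hcd, hce, hde]

theorem noHp_of_free {V : Type} (G : SimpleGraph V)
    (h : ¬ coPathPlusTwo.IsIndContained G) : NoHp G := by
  intro v a b c d hva hvb hvc hvd hab hac had hbc hbd hcd
  apply h
  have hcv : ¬ G.Adj c v := fun h => hvc h.symm
  apply embed5 G _ c v d a b (fun h => hvd (h ▸ hcd)) hcd.ne hac.ne.symm hbc.ne.symm
    (fun h => hvc (h ▸ hcd.symm)) hva.ne hvb.ne had.ne.symm hbd.ne.symm hab.ne <;>
  simp [coPathPlusTwo, hva, hvb, hcv, hvd, hab, hac.symm, had.symm, hbc.symm, hbd.symm, hcd]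

theorem order_bound (H : SimpleGraph (Fin 5)) (hH : H = completeMinusEdge ∨ H = coPathPlusTwo)
    (k : ℕ) :
    ∃ N : ℕ, ∀ (V : Type) [Fintype V] (G : SimpleGraph V),
    IsVertexCritical G k → ¬ (SimpleGraph.pathGraph 5).IsIndContained G →
    ¬ H.IsIndContained G → Fintype.card V < N := by
  rcases Nat.eq_zero_or_pos k with hk | hk
  · subst hk
    refine ⟨1, fun V _ G h _ => ?_⟩
    have h0 : G.Colorable 0 := by
      rw [← SimpleGraph.chromaticNumber_le_iff_colorable, h.1]
    obtain ⟨φ⟩ := h0
    have : IsEmpty V := ⟨fun v => (φ v).elim0⟩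
    intro _
    rw [Fintype.card_eq_zero]
    exact Nat.one_pos
  · obtain ⟨K, rfl⟩ : ∃ K, k = K + 1 := ⟨k - 1, by omega⟩
    obtain ⟨N, hN⟩ := order_bound_two K
    refine ⟨N, fun V _ G h hP5 hfree => ?_⟩
    apply hN V G
    · intro hc
      rw [← SimpleGraph.chromaticNumber_le_iff_colorable, h.1] at hc
      have : K + 1 ≤ K := by exact_mod_cast hc
      omega
    · rw [← SimpleGraph.chromaticNumber_le_iff_colorable, h.1]
    · intro v
      rw [← SimpleGraph.chromaticNumber_le_iff_colorable]
      have h2 := h.2 v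
      have : ((K + 1 : ℕ) : ℕ∞) = (K : ℕ∞) + 1 := by push_cast; rfl
      rw [this] at h2
      exact Order.le_of_lt_add_one h2
    · exact noP5_of_free G hP5
    · rcases hH with rfl | rfl
      · exact Or.inl (noK5e_of_free G hfree)
      · exact Or.inr (noHp_of_free G hfree)

theorem finite_two (H : SimpleGraph (Fin 5)) (hH : H = completeMinusEdge ∨ H = coPathPlusTwo)
    (k : ℕ) : (crit k H).Finite := by
  obtain ⟨N, hN⟩ := order_bound H hH k
  have hfin : {p : Σ n : ℕ, SimpleGraph (Fin n) | IsVertexCritical p.2 k ∧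
      ¬ (SimpleGraph.pathGraph 5).IsIndContained p.2 ∧ ¬ H.IsIndContained p.2}.Finite := by
    apply Set.Finite.subset (s := ⋃ n ∈ Set.Iio N,
      (fun G : SimpleGraph (Fin n) => (⟨n, G⟩ : Σ n : ℕ, SimpleGraph (Fin n))) '' Set.univ)
    · exact Set.Finite.biUnion (Set.finite_Iio N) (fun n _ => Set.toFinite _)
    · rintro ⟨n, G⟩ ⟨h1, h2, h3⟩
      have := hN (Fin n) G h1 h2 h3
      rw [Fintype.card_fin] at this
      simp only [Set.mem_iUnion]
      exact ⟨n, this, G, Set.mem_univ _, rfl⟩
  refine (hfin.image (Quotient.mk isoSetoid)).subset ?_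
  rintro c ⟨p, hp, h1, h2, h3⟩
  exact ⟨p, ⟨h1, h2, h3⟩, hp⟩

theorem circ_free5 {p : ℕ} (hp : 1 ≤ p) :
    ¬ (SimpleGraph.pathGraph 5).IsIndContained (Circ p hp) := by
  rintro ⟨f⟩
  have h : ∀ i j : Fin 5, (Circ p hp).Adj (f i) (f j) ↔ (SimpleGraph.pathGraph 5).Adj i j :=
    fun i j => f.map_rel_iff
  refine Circ.no2 hp (f 0) (f 1) (f 3) (f 4) ((h _ _).2 ?_) ((h _ _).2 ?_)
    (fun h' => ?_) (fun h' => ?_) (fun h' => ?_) (fun h' => ?_)
  · simp [SimpleGraph.pathGraph_adj]
  · simp [SimpleGraph.pathGraph_adj]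
  · have := (h _ _).1 h'
    simp [SimpleGraph.pathGraph_adj] at this
  · have := (h _ _).1 h'
    simp [SimpleGraph.pathGraph_adj] at this
  · have := (h _ _).1 h'
    simp [SimpleGraph.pathGraph_adj] at this
  · have := (h _ _).1 h'
    simp [SimpleGraph.pathGraph_adj] at this

theorem circ_freeK {p : ℕ} (hp : 2 ≤ p) :
    ¬ completeFive.IsIndContained (Circ p (by omega)) := by
  rintro ⟨f⟩
  have h : ∀ i j : Fin 5, i ≠ j → (Circ p (by omega)).Adj (f i) (f j) :=
    fun i j hij => f.map_rel_iff.2 hij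
  -- a vertex outside the clique
  obtain ⟨v, hv⟩ : ∃ v : Fin (4 * p + 1), ∀ i, f i ≠ v := by
    by_contra hcon
    push Not at hcon
    have := Fintype.card_le_of_surjective f hcon
    simp only [Fintype.card_fin] at this
    omega
  obtain ⟨φ⟩ := Circ.del (p := p) (by omega) v
  have : Function.Injective (fun i : Fin 5 => φ ⟨f i, hv i⟩) := by
    intro i j hij
    by_contra hne
    exact φ.valid (v := ⟨f i, hv i⟩) (w := ⟨f j, hv j⟩) (h i j hne) hij
  have := Fintype.card_le_of_injective _ this
  simp only [Fintype.card_fin] at this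
  omega

theorem infinite_five : (crit 5 completeFive).Infinite := by
  let F : ℕ → Σ n : ℕ, SimpleGraph (Fin n) := fun t => ⟨4 * (t + 2) + 1, Circ (t + 2) (by omega)⟩
  refine Set.infinite_of_injective_forall_mem (f := fun t => Quotient.mk isoSetoid (F t)) ?_ ?_
  · intro s t hst
    have h1 : Nonempty ((F s).2 ≃g (F t).2) := Quotient.exact hst
    obtain ⟨e⟩ := h1
    have h2 := Fintype.card_congr e.toEquiv
    simp only [F, Fintype.card_fin] at h2
    omega
  · intro t
    refine ⟨F t, rfl, ⟨?_, ?_⟩, circ_free5 (p := t + 2) (by omega), circ_freeK (p := t + 2) (by omega)⟩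
    · apply le_antisymm
      · exact SimpleGraph.chromaticNumber_le_iff_colorable.2 (Circ.five (p := t + 2) (by omega))
      · by_contra hcon
        push Not at hcon
        have h5 : ((5 : ℕ) : ℕ∞) = (4 : ℕ∞) + 1 := by norm_num
        rw [h5] at hcon
        have h4 := Order.le_of_lt_add_one hcon
        exact Circ.not_four (p := t + 2) (by omega)
          (SimpleGraph.chromaticNumber_le_iff_colorable.1 h4)
    · intro v
      have h4 := SimpleGraph.chromaticNumber_le_iff_colorable.2
        (Circ.del (p := t + 2) (by omega) v)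
      refine lt_of_le_of_lt h4 ?_
      norm_num

/-- The nine open cases. For the eight graphs `P₄ + P₁`, chair, bull, cricket, `C₄ + P₁`, `5 P₁`,
`K₅ - e` and the complement of `P₃ + 2P₁` there are, for every `k`, only finitely many
`k`-vertex-critical `(P₅, H)`-free graphs; for the ninth, `K₅`, there are infinitely many
`5`-vertex-critical ones. -/
theorem result :
    (∀ H ∈ ({fourPathPlusOne, chair, bull, cricket, squarePlusOne, fivePoints, completeMinusEdge,
      coPathPlusTwo} : Set (SimpleGraph (Fin 5))), ∀ k : ℕ, (crit k H).Finite) ∧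
    (crit 5 completeFive).Infinite := by
  refine ⟨?_, infinite_five⟩
  intro H hH k
  simp only [Set.mem_insert_iff, Set.mem_singleton_iff] at hH
  rcases hH with h | h | h | h | h | h | h | h
  · exact SixGraphs.result H (by simp [h]) k
  · exact SixGraphs.result H (by simp [h]) k
  · exact SixGraphs.result H (by simp [h]) k
  · exact SixGraphs.result H (by simp [h]) k
  · exact SixGraphs.result H (by simp [h]) k
  · exact SixGraphs.result H (by simp [h]) k
  · exact finite_two H (Or.inl h) k
  · exact finite_two H (Or.inr h) k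

end Pool.Agent.Results.MP_33dc3a_co.AllNine
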